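import Pool.Agent.TH679.CF.Main
import Pool.Agent.TH679.TG.Asym

/-!
The laws for the two semirings, and the asymptotic form
-/

set_option autoImplicit false

namespace Pool.Agent.TH679.CF

open Finset
open scoped NNReal
open Pool.Agent.H564R3.PW (Instr runs exec syms)
open Pool.Agent.H564R3.TS
open Pool.Agent.H564R3.SV (good_trop_sum)
open Pool.Agent.H561R2.CF (Lt mach)
open Pool.Agent.TH679.PL (kap kap_ge clog_le_logb)

section Solves

variable {Γ : Type} [Fintype Γ]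

/-- The (min,+) program `p`, whose constants are real numbers or infinity, writes into register `o`
the weight of the cheapest word of length `n` of the language, for all weights in the natural
numbers. -/
def SolvesMin (A : Language Γ) (n : ℕ) {ρ : Type} [DecidableEq ρ]
    (p : List (Instr (Tropical (WithTop ℝ)) (Fin n × Γ) ρ)) (o : ρ) : Prop :=
  ∀ w : Fin n × Γ → ℕ,
    exec (fun x => Tropical.trop (((w x : ℕ) : ℝ) : WithTop ℝ)) p o =
      wordSum A n (fun x => Tropical.trop (((w x : ℕ) : ℝ) : WithTop ℝ))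

/-- The program `p` over the nonnegative reals computes the sum over all words of length `n` of the
language of the products of the weights of their letters. -/
def SolvesSum (A : Language Γ) (n : ℕ) {ρ : Type} [DecidableEq ρ]
    (p : List (Instr ℝ≥0 (Fin n × Γ) ρ)) (o : ρ) : Prop :=
  ∀ w : Fin n × Γ → ℝ≥0, exec w p o = wordSum A n w

variable [DecidableEq Γ]

theorem fam_card (A : Language Γ) (n : ℕ) : ∀ B ∈ fam A n, B.card = n := by
  intro B hB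
  obtain ⟨x, _, rfl⟩ := mem_fam.1 hB
  exact graph_card x

theorem good_min {A : Language Γ} {n : ℕ} (hne : (fam A n).Nonempty) {ρ : Type} [DecidableEq ρ]
    {p : List (Instr (Tropical (WithTop ℝ)) (Fin n × Γ) ρ)} {o : ρ} (h : SolvesMin A n p o) :
    (∀ B ∈ fam A n, ind B ∈ syms p o) ∧ ∀ u ∈ syms p o, ∃ B ∈ fam A n, ∀ x ∈ B, u x ≠ 0 :=
  good_trop_sum _ hne _ (fam_card A n) p o (by
    intro w
    rw [h w, wordSum_eq])

theorem good_sum {A : Language Γ} {n : ℕ} {ρ : Type} [DecidableEq ρ]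
    {p : List (Instr ℝ≥0 (Fin n × Γ) ρ)} {o : ρ} (h : SolvesSum A n p o) :
    (∀ B ∈ fam A n, ind B ∈ syms p o) ∧ ∀ u ∈ syms p o, ∃ B ∈ fam A n, ∀ x ∈ B, u x ≠ 0 :=
  good_nn _ _ (fam_card A n) p o (by
    intro w
    rw [h w, wordSum_eq])

theorem good_len {A : Language Γ} {n : ℕ} (hne : (fam A n).Nonempty) {R ρ : Type} [Zero R]
    [DecidableEq ρ] {p : List (Instr R (Fin n × Γ) ρ)} {o : ρ}
    (g1 : ∀ B ∈ fam A n, ind B ∈ syms p o) : 1 ≤ p.length := by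
  rcases p with _ | ⟨a, l⟩
  · obtain ⟨B, hB⟩ := hne
    have h1 := g1 _ hB
    have h2 : syms ([] : List (Instr R (Fin n × Γ) ρ)) o = ∅ := rfl
    rw [h2] at h1
    exact absurd h1 (Set.notMem_empty _)
  · simp

end Solves

theorem fam_nonempty {T h n : ℕ}
    (hn : (4 * T + 4) * (2 + 2 ^ (h + 2) * (2 * h + 5)) + 3 ≤ n) :
    (fam mach.language n).Nonempty := by
  obtain ⟨k, hk⟩ : ∃ k, k = n - (pat (full (2 * T) h T)).length - 3 := ⟨_, rfl⟩
  obtain ⟨w, h1, h2, _⟩ := padded_word (h := h) (T := T) (k := k) (fun _ => false)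
  have hwl : w.length = n := by
    rw [← h1.length_eq]
    unfold padded
    rw [List.length_append, List.length_map, padWord_length]
    have := pat_full_le h T
    omega
  subst hwl
  exact ⟨_, mem_fam.2 ⟨fun i => w.get i, by rw [List.ofFn_get]; exact h2, rfl⟩⟩

theorem size_le {h q n : ℕ} (hh : 1 ≤ h) (hq : 1 ≤ q) (hn : 1100 * h ^ 3 * q * 2 ^ h ≤ n) :
    (4 * (8 * h * h * q) + 4) * (2 + 2 ^ (h + 2) * (2 * h + 5)) + 3 ≤ n := by
  refine le_trans ?_ hn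
  obtain ⟨P, hP⟩ : ∃ P, P = 2 ^ h := ⟨_, rfl⟩
  have hP1 : 1 ≤ P := by rw [hP]; exact Nat.one_le_two_pow
  have e1 : 2 ^ (h + 2) = 4 * P := by rw [hP, pow_add]; ring
  rw [e1, ← hP]
  have h2 : 1 ≤ h * h := Nat.mul_pos hh hh
  have h3 : 1 ≤ h * h * q := Nat.mul_pos h2 hq
  have a1 : 4 * (8 * h * h * q) + 4 ≤ 36 * (h * h * q) := by nlinarith
  have a2 : 2 + 4 * P * (2 * h + 5) ≤ 30 * (h * P) := by nlinarith
  have a3 := Nat.mul_le_mul a1 a2
  have a4 : 1 ≤ h * h * q * (h * P) := Nat.mul_pos h3 (Nat.mul_pos hh hP1)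
  have e2 : 36 * (h * h * q) * (30 * (h * P)) = 1080 * (h * h * q * (h * P)) := by ring
  have e3 : 1100 * h ^ 3 * q * P = 1100 * (h * h * q * (h * P)) := by ring
  rw [e3]
  omega

theorem lawMin {h q n : ℕ} (hh : 1 ≤ h) (hq : 1 ≤ q) (hn : 1100 * h ^ 3 * q * 2 ^ h ≤ n)
    {ρ : Type} [Fintype ρ] [DecidableEq ρ]
    (p : List (Instr (Tropical (WithTop ℝ)) (Fin n × Lt) ρ)) (o : ρ)
    (hs : SolvesMin mach.language n p o) : 1 ≤ p.length ∧ (2 ^ (2 * h)) ^ kap q ≤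
      2 * p.length * ((Nat.clog 2 p.length + 1) * Fintype.card ρ) ^ kap q := by
  have hn' := size_le hh hq hn
  have hne := fam_nonempty hn'
  obtain ⟨g1, g2⟩ := good_min hne hs
  have hp := good_len hne g1
  exact ⟨hp, law hh le_rfl hn' p o g1 g2 hp⟩

theorem lawSum {h q n : ℕ} (hh : 1 ≤ h) (hq : 1 ≤ q) (hn : 1100 * h ^ 3 * q * 2 ^ h ≤ n)
    {ρ : Type} [Fintype ρ] [DecidableEq ρ]
    (p : List (Instr ℝ≥0 (Fin n × Lt) ρ)) (o : ρ)
    (hs : SolvesSum mach.language n p o) : 1 ≤ p.length ∧ (2 ^ (2 * h)) ^ kap q ≤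
      2 * p.length * ((Nat.clog 2 p.length + 1) * Fintype.card ρ) ^ kap q := by
  have hn' := size_le hh hq hn
  obtain ⟨g1, g2⟩ := good_sum hs
  have hp := good_len (fam_nonempty hn') g1
  exact ⟨hp, law hh le_rfl hn' p o g1 g2 hp⟩

/-! ### the asymptotic form -/

open Filter Asymptotics in
theorem exists_large (ε : ℝ) (hε : 0 < ε) : ∃ ν₀ : ℝ, ∀ ν ≥ ν₀,
    ν ^ 2 + 2 ≤ (2 : ℝ) ^ (ε / 4 * ν) ∧ 1100 * ν ^ 3 ≤ (2 : ℝ) ^ (ε / 16 * ν - 1) ∧
      100 / ε ≤ ν ∧ 16 ≤ ν := by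
  obtain ⟨ν₁, h1⟩ := Pool.Agent.TH679.TG.exists_large ε hε
  have hb : 0 < ε / 16 * Real.log 2 := mul_pos (by linarith) (Real.log_pos (by norm_num))
  have h2 : (fun x : ℝ => 2200 * x ^ 3) =o[atTop] fun x => Real.exp (ε / 16 * Real.log 2 * x) :=
    IsLittleO.const_mul_left (isLittleO_pow_exp_pos_mul_atTop 3 hb) 2200
  have h3 := h2.bound (c := 1) one_pos
  obtain ⟨ν₂, h4⟩ := eventually_atTop.1 h3
  refine ⟨max (max ν₁ ν₂) (max (100 / ε) 16), fun ν hν => ⟨?_, ?_, ?_, ?_⟩⟩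
  · exact (h1 ν (le_trans (le_trans (le_max_left _ _) (le_max_left _ _)) hν)).1
  · have h5 := h4 ν (le_trans (le_trans (le_max_right _ _) (le_max_left _ _)) hν)
    rw [one_mul, Real.norm_eq_abs, Real.norm_eq_abs, abs_of_pos (Real.exp_pos _)] at h5
    have h6 := (le_abs_self _).trans h5
    have h7 : (2 : ℝ) ^ (ε / 16 * ν - 1) = Real.exp (ε / 16 * Real.log 2 * ν) / 2 := by
      rw [Real.rpow_sub (by norm_num), Real.rpow_one, Real.rpow_def_of_pos (by norm_num)]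
      congr 2
      ring
    rw [h7]
    linarith
  · exact le_trans (le_trans (le_max_left _ _) (le_max_right _ _)) hν
  · exact le_trans (le_trans (le_max_right _ _) (le_max_right _ _)) hν

theorem steps_ge {ε : ℝ} (hε : 0 < ε) (hε2 : ε ≤ 1) {n K L : ℕ}
    (g1 : Real.logb 2 n ^ 2 + 2 ≤ (2 : ℝ) ^ (ε / 4 * Real.logb 2 n))
    (g4 : 1100 * Real.logb 2 n ^ 3 ≤ (2 : ℝ) ^ (ε / 16 * Real.logb 2 n - 1))
    (g2 : 100 / ε ≤ Real.logb 2 n) (g3 : 16 ≤ Real.logb 2 n) (hn : 1 ≤ n) (hL : 1 ≤ L)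
    (hK : (K : ℝ) ≤ (n : ℝ) ^ (2 - ε))
    (hlaw : ∀ h q : ℕ, 1 ≤ h → 1 ≤ q → 1100 * h ^ 3 * q * 2 ^ h ≤ n →
      (2 ^ (2 * h)) ^ kap q ≤ 2 * L * ((Nat.clog 2 L + 1) * K) ^ kap q) :
    (n : ℝ) ^ (ε ^ 2 / 400 * Real.logb 2 n) ≤ L := by
  by_contra hlt
  push Not at hlt
  obtain ⟨ν, hν⟩ : ∃ ν, ν = Real.logb 2 n := ⟨_, rfl⟩
  rw [← hν] at g1 g2 g3 g4 hlt
  have hn0 : (0 : ℝ) < n := by exact_mod_cast hn
  have hn2 : (n : ℝ) = 2 ^ ν := by
    rw [hν]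
    exact (Real.rpow_logb (by norm_num) (by norm_num) hn0).symm
  have hν0 : 0 < ν := by linarith
  have hεν : 100 ≤ ε * ν := by
    rw [div_le_iff₀ hε] at g2
    linarith
  obtain ⟨s, hs⟩ : ∃ s, s = ⌊ε / 8 * ν⌋₊ := ⟨_, rfl⟩
  have hs1 : (s : ℝ) ≤ ε / 8 * ν := by
    rw [hs]
    exact Nat.floor_le (by positivity)
  have hs2 : ε / 8 * ν < s + 1 := by
    rw [hs]
    exact Nat.lt_floor_add_one _
  obtain ⟨B, hB⟩ : ∃ B, B = ⌊ν⌋₊ := ⟨_, rfl⟩
  have hB1 : (B : ℝ) ≤ ν := by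
    rw [hB]
    exact Nat.floor_le hν0.le
  have hB2 : ν < B + 1 := by
    rw [hB]
    exact Nat.lt_floor_add_one _
  have hsB : s + 1 ≤ B := by
    have h1 : (s : ℝ) + 1 ≤ B := by nlinarith
    exact_mod_cast h1
  obtain ⟨h, hh⟩ : ∃ h, h = B - s := ⟨_, rfl⟩
  have hh' : h + s = B := by omega
  have hh1 : 1 ≤ h := by omega
  obtain ⟨t, ht⟩ : ∃ t, t = s / 2 := ⟨_, rfl⟩
  obtain ⟨t', ht'⟩ : ∃ t', t' = s - t := ⟨_, rfl⟩
  have htt : t + t' = s := by omega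
  have ht2 : s ≤ 2 * t' := by omega
  have hBn : 2 ^ B ≤ n := by
    have h1 : ((2 ^ B : ℕ) : ℝ) ≤ (n : ℝ) := by
      rw [hn2]
      push_cast
      rw [← Real.rpow_natCast]
      exact Real.rpow_le_rpow_of_exponent_le (by norm_num) hB1
    exact_mod_cast h1
  have hfit : 1100 * h ^ 3 * 2 ^ t * 2 ^ h ≤ n := by
    refine le_trans ?_ hBn
    have h1 : 1100 * h ^ 3 ≤ 2 ^ t' := by
      have h2 : ((1100 * h ^ 3 : ℕ) : ℝ) ≤ ((2 ^ t' : ℕ) : ℝ) := by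
        push_cast
        have h3 : (h : ℝ) ≤ ν := by
          have : (h : ℝ) + s = B := by exact_mod_cast hh'
          have : (0 : ℝ) ≤ s := Nat.cast_nonneg _
          linarith
        have h4 : (h : ℝ) ^ 3 ≤ ν ^ 3 := pow_le_pow_left₀ (Nat.cast_nonneg _) h3 3
        have h5 : (2 : ℝ) ^ (ε / 16 * ν - 1) ≤ (2 : ℝ) ^ t' := by
          rw [← Real.rpow_natCast]
          refine Real.rpow_le_rpow_of_exponent_le (by norm_num) ?_
          have h6 : (s : ℝ) ≤ 2 * t' := by exact_mod_cast ht2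
          linarith
        linarith
      exact_mod_cast h2
    calc 1100 * h ^ 3 * 2 ^ t * 2 ^ h ≤ 2 ^ t' * 2 ^ t * 2 ^ h :=
          Nat.mul_le_mul_right _ (Nat.mul_le_mul_right _ h1)
      _ = 2 ^ B := by
          rw [← pow_add, ← pow_add]
          congr 1
          omega
  obtain ⟨κ, hκ⟩ : ∃ κ, κ = kap (2 ^ t) := ⟨_, rfl⟩
  have hl := hlaw h (2 ^ t) hh1 Nat.one_le_two_pow hfit
  rw [← hκ] at hl
  have hκ1 : ε / 64 * ν ≤ κ := by
    have h1 : (t : ℝ) / 2 - 1 ≤ κ := by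
      rw [hκ]
      refine kap_ge ?_
      rw [Real.rpow_natCast]
      push_cast
      exact le_rfl
    have h2 : s ≤ 2 * t + 1 := by omega
    have h3 : (s : ℝ) ≤ 2 * t + 1 := by exact_mod_cast h2
    nlinarith
  have hL0 : (0 : ℝ) < L := by exact_mod_cast hL
  have hLlog : Real.logb 2 L ≤ ε ^ 2 / 400 * ν ^ 2 := by
    rw [Real.logb_le_iff_le_rpow (by norm_num) hL0]
    refine hlt.le.trans (le_of_eq ?_)
    rw [hn2, ← Real.rpow_mul (by norm_num)]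
    congr 1
    ring
  have hclog : (Nat.clog 2 L : ℝ) + 1 ≤ ν ^ 2 + 2 := by
    have e1 := clog_le_logb hL
    have e3 : ε ^ 2 ≤ 1 := by nlinarith
    have e2 : ε ^ 2 / 400 * ν ^ 2 ≤ 1 * ν ^ 2 :=
      mul_le_mul_of_nonneg_right (by linarith) (sq_nonneg ν)
    linarith
  have hx : ((((Nat.clog 2 L + 1) * K : ℕ)) : ℝ) ≤ 2 ^ ((2 - 3 * ε / 4) * ν) := by
    push_cast
    have e0 : (K : ℝ) ≤ 2 ^ ((2 - ε) * ν) := by
      refine hK.trans (le_of_eq ?_)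
      rw [hn2, ← Real.rpow_mul (by norm_num), mul_comm]
    have e1 : ((Nat.clog 2 L : ℝ) + 1) * K ≤ (ν ^ 2 + 2) * 2 ^ ((2 - ε) * ν) :=
      mul_le_mul hclog e0 (Nat.cast_nonneg _) (by positivity)
    have e3 : (2 : ℝ) ^ ((2 - 3 * ε / 4) * ν) = 2 ^ (ε / 4 * ν) * 2 ^ ((2 - ε) * ν) := by
      rw [← Real.rpow_add (by norm_num)]
      congr 1
      ring
    rw [e3]
    exact e1.trans (mul_le_mul_of_nonneg_right g1 (by positivity))
  have hm2 : (2 : ℝ) ^ ((2 - ε / 2) * ν) ≤ ((2 ^ (2 * h) : ℕ) : ℝ) := by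
    have e1 : ((2 ^ (2 * h) : ℕ) : ℝ) = 2 ^ ((2 * h : ℕ) : ℝ) := by
      rw [Real.rpow_natCast]
      push_cast
      rfl
    rw [e1]
    refine Real.rpow_le_rpow_of_exponent_le (by norm_num) ?_
    push_cast
    have e2 : (h : ℝ) + s = B := by exact_mod_cast hh'
    nlinarith
  have hlaw' : ((2 : ℝ) ^ ((2 - ε / 2) * ν)) ^ κ ≤ 2 * L * (2 ^ ((2 - 3 * ε / 4) * ν)) ^ κ := by
    have e1 : ((((2 ^ (2 * h)) ^ κ : ℕ)) : ℝ) ≤ ((2 * L * ((Nat.clog 2 L + 1) * K) ^ κ : ℕ) : ℝ) := by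
      exact_mod_cast hl
    rw [Nat.cast_pow (2 ^ (2 * h)) κ, Nat.cast_mul (2 * L),
      Nat.cast_pow ((Nat.clog 2 L + 1) * K) κ, Nat.cast_mul 2 L, Nat.cast_ofNat] at e1
    refine (pow_le_pow_left₀ (by positivity) hm2 κ).trans (e1.trans ?_)
    refine mul_le_mul_of_nonneg_left ?_ (by positivity)
    exact pow_le_pow_left₀ (Nat.cast_nonneg _) hx κ
  have hfin : ε / 4 * ν * κ ≤ 1 + ε ^ 2 / 400 * ν ^ 2 := by
    have e1 : ((2 : ℝ) ^ ((2 - ε / 2) * ν)) ^ κ =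
        2 ^ (ε / 4 * ν * κ) * (2 ^ ((2 - 3 * ε / 4) * ν)) ^ κ := by
      rw [← Real.rpow_natCast, ← Real.rpow_natCast, ← Real.rpow_mul (by norm_num),
        ← Real.rpow_mul (by norm_num), ← Real.rpow_add (by norm_num)]
      congr 1
      ring
    rw [e1] at hlaw'
    have e2 : (2 : ℝ) ^ (ε / 4 * ν * κ) ≤ 2 * L := le_of_mul_le_mul_right hlaw' (by positivity)
    have e3 : Real.logb 2 ((2 : ℝ) ^ (ε / 4 * ν * κ)) ≤ Real.logb 2 (2 * L) :=
      Real.logb_le_logb_of_le (by norm_num) (by positivity) e2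
    rw [Real.logb_rpow (by norm_num) (by norm_num), Real.logb_mul (by norm_num) hL0.ne',
      Real.logb_self_eq_one (by norm_num)] at e3
    linarith
  have e1 : ε / 4 * ν * (ε / 64 * ν) ≤ ε / 4 * ν * κ :=
    mul_le_mul_of_nonneg_left hκ1 (by positivity)
  have e2 : 100 * 100 ≤ (ε * ν) * (ε * ν) := mul_le_mul hεν hεν (by norm_num) (by positivity)
  nlinarith

end Pool.Agent.TH679.CF
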