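import Pool.Agent.TH679.CF.Strip
import Pool.Agent.TH679.TG.Sub
import Pool.Agent.H564R3.SV.Good

/-!
The lower bound for programs which compute the cheapest word of a language
-/

set_option autoImplicit false

namespace Pool.Agent.TH679.CF

open Finset
open scoped NNReal
open Pool.Agent.H564R3.PW (Instr runs exec syms)
open Pool.Agent.H564R3.TS
open Pool.Agent.H564R3.SV (good_trop_sum)
open Pool.Agent.H561R2.CF
open Pool.Agent.TH679.SP (Pos lft rgt ce cset mem_cset)
open Pool.Agent.TH679.TG (sub img Ok syms_sub)
open Pool.Agent.TH679.PL (kap)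

section Words

variable {Γ : Type}

open Classical in
/-- The sum over all words `x` of length `n` of the language of the products of the weights
`w (i, x i)` of their letters (over the tropical semiring: the weight of the cheapest word). -/
noncomputable def wordSum [Fintype Γ] (A : Language Γ) (n : ℕ) {R : Type} [CommSemiring R]
    (w : Fin n × Γ → R) : R :=
  ∑ x ∈ univ.filter (fun x : Fin n → Γ => List.ofFn x ∈ A), ∏ i, w (i, x i)

/-- the variables of a word -/
def graph [DecidableEq Γ] {n : ℕ} (x : Fin n → Γ) : Finset (Fin n × Γ) :=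
  univ.image fun i => (i, x i)

theorem mem_graph [DecidableEq Γ] {n : ℕ} {x : Fin n → Γ} {y : Fin n × Γ} :
    y ∈ graph x ↔ x y.1 = y.2 := by
  unfold graph
  rw [mem_image]
  constructor
  · rintro ⟨i, _, rfl⟩
    rfl
  · intro h
    exact ⟨y.1, mem_univ _, Prod.ext rfl h⟩

theorem graph_inj [DecidableEq Γ] {n : ℕ} : Function.Injective (graph (Γ := Γ) (n := n)) := by
  intro x y h
  funext i
  have h1 : (i, x i) ∈ graph x := mem_graph.2 rfl
  rw [h, mem_graph] at h1
  exact h1.symm

theorem graph_card [DecidableEq Γ] {n : ℕ} (x : Fin n → Γ) : (graph x).card = n := by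
  unfold graph
  rw [card_image_of_injective, card_univ, Fintype.card_fin]
  intro i j h
  exact congrArg Prod.fst h

open Classical in
/-- the words of the language as sets of variables -/
noncomputable def fam [Fintype Γ] [DecidableEq Γ] (A : Language Γ) (n : ℕ) :
    Finset (Finset (Fin n × Γ)) :=
  (univ.filter (fun x : Fin n → Γ => List.ofFn x ∈ A)).image graph

theorem mem_fam [Fintype Γ] [DecidableEq Γ] {A : Language Γ} {n : ℕ} {B : Finset (Fin n × Γ)} :
    B ∈ fam A n ↔ ∃ x : Fin n → Γ, List.ofFn x ∈ A ∧ B = graph x := by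
  classical
  unfold fam
  simp only [mem_image, mem_filter, mem_univ, true_and]
  constructor
  · rintro ⟨x, hx, rfl⟩
    exact ⟨x, hx, rfl⟩
  · rintro ⟨x, hx, rfl⟩
    exact ⟨x, hx, rfl⟩

theorem wordSum_eq [Fintype Γ] [DecidableEq Γ] (A : Language Γ) (n : ℕ) {R : Type}
    [CommSemiring R] (w : Fin n × Γ → R) : wordSum A n w = ∑ B ∈ fam A n, ∏ x ∈ B, w x := by
  classical
  unfold wordSum fam
  rw [sum_image (fun x _ y _ h => graph_inj h)]
  refine sum_congr rfl fun x _ => ?_
  unfold graph
  rw [prod_image (fun i _ j _ h => congrArg Prod.fst h)]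

end Words

section Patterns

variable {Y : Type}

theorem al_iff : ∀ (l : List (Slot Y)) (w : Fin l.length → Lt),
    Al l (List.ofFn w) ↔ ∀ i, l.get i (w i) ≠ none := by
  intro l
  induction l with
  | nil =>
    intro w
    constructor
    · intro _ i
      exact i.elim0
    · intro _
      rw [List.ofFn_zero]
      exact List.Forall₂.nil
  | cons s l ih =>
    intro w
    have e : List.ofFn w = w 0 :: List.ofFn (fun i : Fin l.length => w i.succ) :=
      List.ofFn_succ ..
    rw [e]
    constructor
    · intro h i
      cases h with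
      | cons h1 h2 =>
        refine Fin.cases ?_ (fun j => ?_) i
        · exact h1
        · exact (ih _).1 h2 j
    · intro h
      exact List.Forall₂.cons (h 0) ((ih _).2 fun j => h j.succ)

theorem mem_vars : ∀ (l : List (Slot Y)) (w : Fin l.length → Lt) (y : Y),
    y ∈ vars l (List.ofFn w) → ∃ i, l.get i (w i) = some (some y) := by
  intro l
  induction l with
  | nil =>
    intro w y h
    have : vars ([] : List (Slot Y)) (List.ofFn w) = [] := by
      cases List.ofFn w <;> rfl
    rw [this] at h
    exact absurd h List.not_mem_nil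
  | cons s l ih =>
    intro w y h
    have e : List.ofFn w = w 0 :: List.ofFn (fun i : Fin l.length => w i.succ) :=
      List.ofFn_succ ..
    rw [e] at h
    replace h : y ∈ vr s (w 0) ++ vars l (List.ofFn (fun i : Fin l.length => w i.succ)) := h
    rw [List.mem_append] at h
    rcases h with h | h
    · refine ⟨0, ?_⟩
      show s (w 0) = some (some y)
      unfold vr at h
      rcases hs : s (w 0) with _ | z
      · rw [hs] at h
        simp at h
      · rw [hs] at h
        rw [Option.bind_some, id, Option.mem_toList] at h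
        rw [Option.mem_def.1 h]
    · obtain ⟨i, hi⟩ := ih _ y h
      exact ⟨i.succ, hi⟩

variable [DecidableEq Y]

theorem count_vr (s : Slot Y) (a : Lt) (y : Y) :
    (vr s a).count y = if s a = some (some y) then 1 else 0 := by
  unfold vr
  rcases s a with _ | _ | z
  · simp
  · simp
  · rw [Option.bind_some, id, Option.toList_some, List.count_singleton]
    simp only [beq_iff_eq, Option.some.injEq]

theorem sum_vars : ∀ (l : List (Slot Y)) (w : Fin l.length → Lt) (y : Y),
    (∑ i, if l.get i (w i) = some (some y) then 1 else 0) = (vars l (List.ofFn w)).count y := by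
  intro l
  induction l with
  | nil =>
    intro w y
    have : vars ([] : List (Slot Y)) (List.ofFn w) = [] := by
      cases List.ofFn w <;> rfl
    rw [this]
    simp
  | cons s l ih =>
    intro w y
    have e : List.ofFn w = w 0 :: List.ofFn (fun i : Fin l.length => w i.succ) :=
      List.ofFn_succ ..
    rw [e]
    show _ = (vr s (w 0) ++ vars l (List.ofFn (fun i : Fin l.length => w i.succ))).count y
    rw [List.count_append, ← ih, count_vr]
    exact Fin.sum_univ_succ _

theorem img_graph (l : List (Slot Y)) (w : Fin l.length → Lt) (y : Y) :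
    img (fun x : Fin l.length × Lt => l.get x.1 x.2) (ind (graph w)) y =
      (vars l (List.ofFn w)).count y := by
  rw [← sum_vars]
  unfold img
  rw [sum_filter, ← univ_product_univ, sum_product]
  refine sum_congr rfl fun i _ => ?_
  dsimp only
  rw [sum_eq_single (w i)]
  · unfold ind
    rw [if_pos (mem_graph.2 rfl)]
  · intro a _ ha
    unfold ind
    rw [if_neg (fun h => ha (mem_graph.1 h).symm)]
    simp
  · intro h
    exact absurd (mem_univ _) h

end Patterns

section Pad

/-- a block which does nothing, with `k + 3` letters -/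
def padWord (k : ℕ) : List Lt := .opn :: .yes :: (List.replicate k .no ++ [.cls])

theorem padWord_length (k : ℕ) : (padWord k).length = k + 3 := by
  simp [padWord]

theorem run_done_no (σ : List Bool) : ∀ k, mach.run (.done, σ) (List.replicate k .no ++ [.cls]) =
    some (ost σ, σ) := by
  intro k
  induction k with
  | zero =>
    show (mach.next (.done, σ) .cls).bind _ = _
    rw [next_done_cls]
    rfl
  | succ k ih =>
    show (mach.next (.done, σ) .no).bind _ = _
    rw [next_done σ (by simp) (by simp)]
    exact ih

theorem run_pad (σ : List Bool) (k : ℕ) : mach.run (ost σ, σ) (padWord k) = some (ost σ, σ) := by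
  unfold padWord
  rw [run_cons, next_opn]
  show mach.run (.look, σ) (.yes :: (List.replicate k .no ++ [.cls])) = _
  rw [run_cons, next_look_yes]
  show mach.run (.act, σ) (List.replicate k .no ++ [.cls]) = _
  cases k with
  | zero =>
    show (mach.next (.act, σ) .cls).bind _ = _
    rw [next_act_cls]
    rfl
  | succ k =>
    show (mach.next (.act, σ) .no).bind _ = _
    rw [next_act_no]
    exact run_done_no σ k

end Pad

/-- the pattern with `k + 3` additional letters -/
noncomputable def padded (h T k : ℕ) : List (Slot (Pos (2 * T) × Fin 2 × Fin 2)) :=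
  pat (full (2 * T) h T) ++ (padWord k).map forced

theorem padded_word {h T k : ℕ} (χ : ℕ → Bool) :
    ∃ w, Al (padded h T k) w ∧ w ∈ mach.language ∧
      vars (padded h T k) w = cv (full (2 * T) h T) χ := by
  obtain ⟨u, h1, h2, h3⟩ := exists_word χ _ _ _ (sch_full (S := 2 * T) (h := h) T)
  refine ⟨u ++ padWord k, h1.append (al_forced _), ?_, ?_⟩
  · refine ⟨(ost [], []), ?_, rfl⟩
    show mach.run (ost [], []) (u ++ padWord k) = _
    rw [run_append]
    have h2' : mach.run (ost [], []) u = some (ost [], []) := h2
    rw [h2']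
    exact run_pad [] k
  · unfold padded
    rw [vars_append _ _ _ _ h1.length_eq, h3, vars_forced, List.append_nil]

theorem padded_inv {h T k : ℕ} {w : List Lt} (hw : Al (padded h T k) w)
    (hL : w ∈ mach.language) : ∃ χ : ℕ → Bool, vars (padded h T k) w = cv (full (2 * T) h T) χ := by
  obtain ⟨u, v, rfl, h1, h2⟩ := hw.split
  obtain ⟨c, hc, _⟩ := hL
  rw [run_append, Option.bind_eq_some_iff] at hc
  obtain ⟨c', h3, _⟩ := hc
  have h3' : mach.run (ost (([] : List ℕ).map fun _ => false), ([] : List ℕ).map fun _ => false) u =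
      some c' := h3
  obtain ⟨χ, _, _, h4⟩ := word_inv _ _ _ ∅ (fun _ => false) u c' (sch_full (S := 2 * T) (h := h) T)
    (fr_full T) (by simp) h1 h3'
  refine ⟨χ, ?_⟩
  have hv := al_forced_inv h2
  subst hv
  unfold padded
  rw [vars_append _ _ _ _ h1.length_eq, h4, vars_forced, List.append_nil]

theorem padded_inv' {h T k : ℕ} {l : List (Slot (Pos (2 * T) × Fin 2 × Fin 2))}
    (hl : l = padded h T k) {w : List Lt} (hw : Al l w)
    (hL : w ∈ mach.language) : ∃ χ : ℕ → Bool, vars l w = cv (full (2 * T) h T) χ := by
  subst hl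
  exact padded_inv hw hL

/-! ### lengths -/

section Length

variable {Y : Type}

theorem opts_length (B : Blk Y) : ∀ Os : List (Finset ℕ),
    (opts B Os).length = Os.length * (1 + B.pops.length + B.res.length) := by
  intro Os
  induction Os with
  | nil => simp [opts]
  | cons X Os ih =>
    show (optPat B X ++ opts B Os).length = _
    rw [List.length_append, ih, List.length_cons]
    have : (optPat B X).length = 1 + B.pops.length + B.res.length := by
      simp [optPat, code]
      ring
    rw [this]
    ring

theorem blkPat_length (B : Blk Y) :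
    (blkPat B).length = 2 + 2 ^ B.all.card * (1 + B.pops.length + B.res.length) := by
  show (opts B B.all.powerset.toList ++ [forced .cls]).length + 1 = _
  rw [List.length_append, opts_length, Finset.length_toList, Finset.card_powerset]
  simp
  ring

theorem pat_length_le (Bs : List (Blk Y)) (c : ℕ) (hc : ∀ B ∈ Bs, (blkPat B).length ≤ c) :
    (pat Bs).length ≤ Bs.length * c := by
  induction Bs with
  | nil => simp [pat]
  | cons B Bs ih =>
    show (blkPat B ++ pat Bs).length ≤ _
    rw [List.length_append, List.length_cons, Nat.succ_mul, add_comm]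
    exact Nat.add_le_add (ih fun B' hB' => hc B' (List.mem_cons_of_mem _ hB'))
      (hc B List.mem_cons_self)

end Length

theorem mk_len {S h : ℕ} (pops res all : List ℕ) (e : Option (ℕ × Bool))
    (h1 : all.length ≤ h + 2) (h2 : pops.length + res.length ≤ 2 * h + 4) :
    (blkPat (mk S h pops res all e)).length ≤ 2 + 2 ^ (h + 2) * (2 * h + 5) := by
  rw [blkPat_length]
  have h3 : (mk S h pops res all e).all.card ≤ h + 2 := (List.toFinset_card_le all).trans h1
  refine Nat.add_le_add_left (Nat.mul_le_mul (Nat.pow_le_pow_right (by norm_num) h3) ?_) _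
  show 1 + pops.length + res.length ≤ _
  omega

theorem mids_len {S h : ℕ} : ∀ r s : ℕ, (∀ B ∈ mids S h r s,
    (blkPat B).length ≤ 2 + 2 ^ (h + 2) * (2 * h + 5)) ∧ (mids S h r s).length = 4 * r + 2 := by
  intro r
  induction r with
  | zero =>
    intro s
    refine ⟨?_, rfl⟩
    intro B hB
    simp only [mids, List.mem_cons, List.not_mem_nil, or_false] at hB
    rcases hB with rfl | rfl
    · refine mk_len _ _ _ _ ?_ ?_
      · rw [ev_length]; omega
      · rw [ev_length]; simp; omega
    · refine mk_len _ _ _ _ ?_ ?_
      · rw [od_length]; omega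
      · rw [od_length]; simp; omega
  | succ r ih =>
    intro s
    obtain ⟨h1, h2⟩ := ih (s + 1)
    constructor
    · intro B hB
      simp only [mids, List.mem_cons, List.mem_append, List.not_mem_nil, or_false] at hB
      rcases hB with rfl | rfl | rfl | hB | rfl
      · refine mk_len _ _ _ _ ?_ ?_
        · simp [ev_length]
        · simp [ev_length]; omega
      · refine mk_len _ _ _ _ ?_ ?_
        · simp [ev_length]
        · simp [ev_length]; omega
      · refine mk_len _ _ _ _ ?_ ?_
        · simp [ev_length]
        · simp [ev_length]; omega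
      · exact h1 B hB
      · refine mk_len _ _ _ _ ?_ ?_
        · simp [od_length]
        · simp [od_length]; omega
    · simp only [mids, List.length_cons, List.length_append, List.length_nil, h2]
      omega

theorem pat_full_le (h T : ℕ) : (pat (full (2 * T) h T)).length ≤
    (4 * T + 4) * (2 + 2 ^ (h + 2) * (2 * h + 5)) := by
  obtain ⟨h1, h2⟩ := mids_len (S := 2 * T) (h := h) T 0
  have h3 := pat_length_le (full (2 * T) h T) (2 + 2 ^ (h + 2) * (2 * h + 5)) (by
    intro B hB
    simp only [full, List.mem_cons, List.mem_append, List.not_mem_nil, or_false] at hB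
    rcases hB with rfl | hB | rfl
    · refine mk_len _ _ _ _ ?_ ?_ <;> simp [ev_length]
      omega
    · exact h1 B hB
    · refine mk_len _ _ _ _ ?_ ?_ <;> simp [od_length]
      omega)
  have h4 : (full (2 * T) h T).length = 4 * T + 4 := by
    simp only [full, List.length_cons, List.length_append, List.length_nil, h2]
  rw [h4] at h3
  exact h3

theorem law {R ρ : Type} [Semiring R] [Nontrivial R] [Fintype ρ] [DecidableEq ρ] {T h q n : ℕ}
    (hh : 1 ≤ h) (hT : 8 * h * h * q ≤ T)
    (hn : (4 * T + 4) * (2 + 2 ^ (h + 2) * (2 * h + 5)) + 3 ≤ n)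
    (p : List (Instr R (Fin n × Lt) ρ)) (o : ρ)
    (g1 : ∀ A ∈ fam mach.language n, ind A ∈ syms p o)
    (g2 : ∀ u ∈ syms p o, ∃ A ∈ fam mach.language n, ∀ x ∈ A, u x ≠ 0)
    (hp : 1 ≤ p.length) :
    (2 ^ (2 * h)) ^ kap q ≤
      2 * p.length * ((Nat.clog 2 p.length + 1) * Fintype.card ρ) ^ kap q := by
  classical
  obtain ⟨k, hk⟩ : ∃ k, k = n - (pat (full (2 * T) h T)).length - 3 := ⟨_, rfl⟩
  obtain ⟨l, hl⟩ : ∃ l, l = padded h T k := ⟨_, rfl⟩
  have hln : l.length = n := by
    rw [hl]
    unfold padded
    rw [List.length_append, List.length_map, padWord_length]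
    have := pat_full_le h T
    omega
  subst hln
  have hd : 1 ≤ 2 * h := by omega
  obtain ⟨cls, hcls⟩ : ∃ cls : Fin l.length × Lt → Option (Option (Pos (2 * T) × Fin 2 × Fin 2)),
    cls = fun x => l.get x.1 x.2 := ⟨_, rfl⟩
  have hlen : (p.map (sub (R := R) (ρ := ρ) cls)).length = p.length := List.length_map ..
  rw [← hlen]
  refine Pool.Agent.TH679.SP.law (S := 2 * T) (d := 2 * h) (m := 2) (n := q) (by norm_num) hd
    (by nlinarith) (p.map (sub cls)) o ?_ ?_ (by rw [hlen]; exact hp)
  · intro A hA
    rw [mem_image] at hA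
    obtain ⟨χ', _, rfl⟩ := hA
    obtain ⟨χ, hχ⟩ : ∃ χ : ℕ → Bool, ∀ a, χ a =
        if ha : a < 2 * T + 2 * h then decide (χ' ⟨a, ha⟩ = 1) else false := ⟨_, fun _ => rfl⟩
    have hcol : (fun a : Fin (2 * T + 2 * h) => col (χ a.val)) = χ' := by
      funext a
      rw [hχ, dif_pos a.2]
      show col (decide (χ' a = 1)) = χ' a
      generalize χ' a = z
      fin_cases z <;> rfl
    obtain ⟨w, a1, a2, a3⟩ := padded_word (h := h) (T := T) (k := k) χ
    rw [← hl] at a1 a3
    have hwl := a1.length_eq
    have hw' : List.ofFn (fun i : Fin l.length => w.get (i.cast hwl)) = w := by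
      rw [← List.ofFn_congr hwl.symm (fun i => w.get i)]
      exact List.ofFn_get w
    rw [syms_sub]
    refine ⟨ind (graph (fun i : Fin l.length => w.get (i.cast hwl))),
      g1 _ (mem_fam.2 ⟨_, by rw [hw']; exact a2, rfl⟩), ?_, ?_⟩
    · rw [← hw', al_iff] at a1
      intro x hx
      unfold ind
      rw [if_neg]
      intro hxg
      rw [mem_graph] at hxg
      rw [hcls] at hx
      apply a1 x.1
      rw [hxg]
      exact hx
    · funext y
      have hc := count_cv (T := T) hh χ y
      rw [hcol] at hc
      rw [hcls, img_graph, hw', a3]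
      refine Eq.trans ?_ (hc.trans ?_)
      · congr 1
        exact lawful_beq_subsingleton _ _
      · unfold ind
        simp only [mem_cset]
  · intro v hv
    rw [syms_sub] at hv
    obtain ⟨u, hu, hok, rfl⟩ := hv
    obtain ⟨A, hA, hAu⟩ := g2 u hu
    obtain ⟨x, hx, rfl⟩ := mem_fam.1 hA
    have hAl : Al l (List.ofFn x) := by
      rw [al_iff]
      intro i hi
      refine hAu (i, x i) (mem_graph.2 rfl) (hok _ ?_)
      rw [hcls]
      exact hi
    obtain ⟨χ, hχ⟩ := padded_inv' hl hAl hx
    refine ⟨_, mem_image_of_mem _ (mem_univ (fun a => col (χ a.val))), ?_⟩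
    intro y hy
    rw [mem_cset] at hy
    have h1 : (vars l (List.ofFn x)).count y = 1 := by
      rw [hχ, count_cv hh, if_pos hy]
    have h2 : y ∈ vars l (List.ofFn x) := List.count_pos_iff.1 (by omega)
    obtain ⟨i, hi⟩ := mem_vars l x y h2
    have h3 : u (i, x i) ≠ 0 := hAu _ (mem_graph.2 rfl)
    have h4 : u (i, x i) ≤ img cls u y := by
      unfold img
      refine single_le_sum (f := u) (fun _ _ => Nat.zero_le _) ?_
      rw [mem_filter, hcls]
      exact ⟨mem_univ _, hi⟩
    omega

end Pool.Agent.TH679.CF
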