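import Pool.Agent.TH679.CF.Slots

/-!
Sequences of blocks
-/

set_option autoImplicit false

namespace Pool.Agent.TH679.CF

open Pool.Agent.H561R2.CF

variable {Y : Type}

/-- the pattern of a sequence of blocks -/
noncomputable def pat (Bs : List (Blk Y)) : List (Slot Y) := Bs.flatMap blkPat

/-- the blocks fit together: the names on the stack change from `N` to `N'` -/
def Sch : List ℕ → List (Blk Y) → List ℕ → Prop
  | N, [], N' => N = N'
  | N, B :: Bs, N' => ∃ R, N = B.pops ++ R ∧ (∀ g ∈ B.pops, g ∈ B.all) ∧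
      (∀ g ∈ B.res, g ∈ B.all) ∧ Sch (B.res ++ R) Bs N'

/-- the names of a block are popped there, or they were not used before -/
def Fr : Set ℕ → List (Blk Y) → Prop
  | _, [] => True
  | U, B :: Bs => (∀ g ∈ B.all, g ∈ B.pops ∨ g ∉ U) ∧ Fr (U ∪ {g | g ∈ B.all}) Bs

/-- the options of a coloring -/
def pick (χ : ℕ → Bool) (B : Blk Y) : Finset ℕ := B.all.filter fun g => χ g = true

theorem bt_pick (χ : ℕ → Bool) (B : Blk Y) {g : ℕ} (hg : g ∈ B.all) :
    bt (pick χ B) g = χ g := by
  unfold bt pick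
  by_cases h : χ g = true
  · rw [h]
    exact decide_eq_true (Finset.mem_filter.2 ⟨hg, h⟩)
  · rw [Bool.eq_false_iff.2 h]
    exact decide_eq_false fun h' => h (Finset.mem_filter.1 h').2

theorem map_bt_pick (χ : ℕ → Bool) (B : Blk Y) {l : List ℕ} (hl : ∀ g ∈ l, g ∈ B.all) :
    l.map (bt (pick χ B)) = l.map χ :=
  List.map_congr_left fun g hg => bt_pick χ B (hl g hg)

/-- the variables of a coloring -/
def cv (Bs : List (Blk Y)) (χ : ℕ → Bool) : List Y := Bs.flatMap fun B => (B.var (pick χ B)).toList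

theorem exists_word (χ : ℕ → Bool) : ∀ (Bs : List (Blk Y)) (N N' : List ℕ), Sch N Bs N' →
    ∃ w, Al (pat Bs) w ∧
      mach.run (ost (N.map χ), N.map χ) w = some (ost (N'.map χ), N'.map χ) ∧
      vars (pat Bs) w = cv Bs χ := by
  intro Bs
  induction Bs with
  | nil =>
    intro N N' h
    have h' : N = N' := h
    subst h'
    exact ⟨[], List.Forall₂.nil, rfl, rfl⟩
  | cons B Bs ih =>
    rintro N N' ⟨R, rfl, h1, h2, h3⟩
    obtain ⟨w', a1, a2, a3⟩ := ih _ _ h3
    obtain ⟨w, b1, b2, b3⟩ := blk_exists B (X := pick χ B) (Finset.filter_subset _ _) (R.map χ)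
    rw [map_bt_pick χ B h1, map_bt_pick χ B h2, ← List.map_append, ← List.map_append] at b2
    refine ⟨w ++ w', b1.append a1, ?_, ?_⟩
    · rw [run_append, b2]
      exact a2
    · show vars (blkPat B ++ pat Bs) (w ++ w') = _
      rw [vars_append _ _ _ _ b1.length_eq, b3, a3]
      rfl

theorem word_inv : ∀ (Bs : List (Blk Y)) (N N' : List ℕ) (U : Set ℕ) (χ₀ : ℕ → Bool)
    (w : List Lt) (c : St × List Bool), Sch N Bs N' → Fr U Bs → (∀ g ∈ N, g ∈ U) →
    Al (pat Bs) w → mach.run (ost (N.map χ₀), N.map χ₀) w = some c →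
    ∃ χ : ℕ → Bool, (∀ g ∈ U, χ g = χ₀ g) ∧ c = (ost (N'.map χ), N'.map χ) ∧
      vars (pat Bs) w = cv Bs χ := by
  intro Bs
  induction Bs with
  | nil =>
    intro N N' U χ₀ w c hS _ _ hw h
    have h' : N = N' := hS
    subst h'
    have hw' : w = [] := by
      unfold Al pat at hw
      rw [List.flatMap_nil, List.forall₂_nil_left_iff] at hw
      exact hw
    subst hw'
    exact ⟨χ₀, fun _ _ => rfl, (Option.some.inj h).symm, rfl⟩
  | cons B Bs ih =>
    rintro N N' U χ₀ w c ⟨R, rfl, h1, h2, h3⟩ ⟨f1, f2⟩ hN hw h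
    obtain ⟨u, v, rfl, hu, hv⟩ := Al.split (ss := blkPat B) (tt := pat Bs) hw
    rw [run_append, Option.bind_eq_some_iff] at h
    obtain ⟨c', g1, g2⟩ := h
    obtain ⟨X, hX, rest, e1, e2, e3⟩ := blk_inv hu g1
    rw [List.map_append] at e1
    obtain ⟨e4, e5⟩ := List.append_inj e1 (by rw [List.length_map, List.length_map])
    obtain ⟨χ₁, hχ₁⟩ : ∃ χ₁ : ℕ → Bool, ∀ g, χ₁ g = if g ∈ B.all then bt X g else χ₀ g :=
      ⟨_, fun _ => rfl⟩
    have k1 : ∀ g ∈ U, χ₁ g = χ₀ g := by
      intro g hg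
      rw [hχ₁]
      split_ifs with hgB
      · rcases f1 g hgB with h4 | h4
        · have h5 := List.map_inj_left.1 e4 g h4
          exact h5.symm
        · exact absurd hg h4
      · rfl
    have k2 : pick χ₁ B = X := by
      ext g
      unfold pick
      rw [Finset.mem_filter, hχ₁]
      constructor
      · rintro ⟨h4, h5⟩
        rw [if_pos h4] at h5
        exact of_decide_eq_true h5
      · intro h4
        refine ⟨hX h4, ?_⟩
        rw [if_pos (hX h4)]
        exact decide_eq_true h4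
    have k3 : B.res.map (bt X) ++ rest = (B.res ++ R).map χ₁ := by
      rw [List.map_append, ← e5, ← k2, map_bt_pick χ₁ B h2]
      congr 1
      exact List.map_congr_left fun g hg => (k1 g (hN g (List.mem_append_right _ hg))).symm
    rw [k3] at e2
    subst e2
    obtain ⟨χ, m1, m2, m3⟩ := ih _ _ _ χ₁ v c h3 f2 (by
      intro g hg
      rw [List.mem_append] at hg
      rcases hg with hg | hg
      · exact Or.inr (h2 g hg)
      · exact Or.inl (hN g (List.mem_append_right _ hg))) hv g2
    refine ⟨χ, fun g hg => (m1 g (Or.inl hg)).trans (k1 g hg), m2, ?_⟩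
    show vars (blkPat B ++ pat Bs) (u ++ v) = _
    rw [vars_append _ _ _ _ hu.length_eq, e3, m3]
    have k4 : pick χ B = X := by
      rw [← k2]
      unfold pick
      refine Finset.filter_congr fun g hg => ?_
      rw [m1 g (Or.inr hg)]
    show _ = (B.var (pick χ B)).toList ++ cv Bs χ
    rw [k4]

end Pool.Agent.TH679.CF
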