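import Pool.Agent.H561R2.CF.Grammar

/-!
Patterns for the words of the deterministic context-free language of `H561R2.CF`
-/

set_option autoImplicit false

namespace Pool.Agent.TH679.CF

open Pool.Agent.H561R2.CF

section Slots

variable {Y : Type}

/-- What is allowed at a position: for each letter `none` (the letter is forbidden), `some none`
(the letter gets the weight 1) or `some (some y)` (it gets the weight of the variable `y`). -/
abbrev Slot (Y : Type) : Type := Lt → Option (Option Y)

/-- only the letter `a` is allowed -/
def forced (a : Lt) : Slot Y := fun b => if b = a then some none else none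

/-- `yes` (with the variable `y`, if any) and `no` are allowed -/
def marker (y : Option Y) : Slot Y
  | .yes => some y
  | .no => some none
  | _ => none

/-- the variable of a letter, if any -/
def vr (s : Slot Y) (a : Lt) : List Y := ((s a).bind id).toList

/-- the variables of a word -/
def vars : List (Slot Y) → List Lt → List Y
  | s :: ss, a :: w => vr s a ++ vars ss w
  | _, _ => []

/-- the word is allowed by the pattern -/
def Al (ss : List (Slot Y)) (w : List Lt) : Prop := List.Forall₂ (fun s a => s a ≠ none) ss w

theorem vr_forced (a : Lt) : vr (forced (Y := Y) a) a = [] := by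
  simp [vr, forced]

theorem vr_no (y : Option Y) : vr (marker y) .no = [] := rfl

theorem vr_yes (y : Option Y) : vr (marker y) .yes = y.toList := rfl

theorem vars_append : ∀ (ss : List (Slot Y)) (tt : List (Slot Y)) (u v : List Lt),
    ss.length = u.length → vars (ss ++ tt) (u ++ v) = vars ss u ++ vars tt v := by
  intro ss
  induction ss with
  | nil =>
    intro tt u v h
    cases u with
    | nil => rfl
    | cons a u => simp at h
  | cons s ss ih =>
    intro tt u v h
    cases u with
    | nil => simp at h
    | cons a u =>
      have h' : ss.length = u.length := by simpa using h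
      show vr s a ++ vars (ss ++ tt) (u ++ v) = vr s a ++ vars ss u ++ vars tt v
      rw [ih tt u v h', List.append_assoc]

theorem Al.length_eq {ss : List (Slot Y)} {w : List Lt} (h : Al ss w) : ss.length = w.length :=
  List.Forall₂.length_eq h

theorem Al.append {ss tt : List (Slot Y)} {u v : List Lt} (h1 : Al ss u) (h2 : Al tt v) :
    Al (ss ++ tt) (u ++ v) := by
  unfold Al at *
  induction h1 with
  | nil => exact h2
  | cons h _ ih => exact List.Forall₂.cons h ih

theorem Al.split : ∀ {ss tt : List (Slot Y)} {w : List Lt}, Al (ss ++ tt) w →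
    ∃ u v, w = u ++ v ∧ Al ss u ∧ Al tt v := by
  intro ss
  induction ss with
  | nil => intro tt w h; exact ⟨[], w, rfl, List.Forall₂.nil, h⟩
  | cons s ss ih =>
    intro tt w h
    unfold Al at h
    rw [List.cons_append] at h
    cases h with
    | cons h1 h2 =>
      obtain ⟨u, v, rfl, h3, h4⟩ := ih h2
      exact ⟨_ :: u, v, rfl, List.Forall₂.cons h1 h3, h4⟩

theorem Al.cons_inv {s : Slot Y} {ss : List (Slot Y)} {w : List Lt} (h : Al (s :: ss) w) :
    ∃ a v, w = a :: v ∧ s a ≠ none ∧ Al ss v := by
  unfold Al at h
  cases h with
  | cons h1 h2 => exact ⟨_, _, rfl, h1, h2⟩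

theorem forced_ne {a b : Lt} (h : forced (Y := Y) a b ≠ none) : b = a := by
  unfold forced at h
  by_contra hcon
  rw [if_neg hcon] at h
  exact h rfl

theorem forced_self (a : Lt) : forced (Y := Y) a a ≠ none := by
  unfold forced
  rw [if_pos rfl]
  simp

theorem al_forced : ∀ (t : List Lt), Al (Y := Y) (t.map forced) t := by
  intro t
  induction t with
  | nil => exact List.Forall₂.nil
  | cons a t ih => exact List.Forall₂.cons (forced_self a) ih

theorem al_forced_inv : ∀ {t w : List Lt}, Al (Y := Y) (t.map forced) w → w = t := by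
  intro t
  induction t with
  | nil =>
    intro w h
    unfold Al at h
    rw [List.map_nil, List.forall₂_nil_left_iff] at h
    exact h
  | cons a t ih =>
    intro w h
    rw [List.map_cons] at h
    obtain ⟨b, v, rfl, h1, h2⟩ := h.cons_inv
    rw [forced_ne h1, ih h2]

theorem vars_forced : ∀ (t : List Lt), vars (Y := Y) (t.map forced) t = [] := by
  intro t
  induction t with
  | nil => rfl
  | cons a t ih =>
    show vr (forced a) a ++ vars (t.map forced) t = []
    rw [vr_forced, ih]
    rfl

end Slots

/-- A block: the names which are popped, the names on the top of the stack after the block, the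
names whose values are determined by an option, and the variable of an option. An option is given by
the set of the names with the value `true`. -/
structure Blk (Y : Type) where
  /-- the names which are popped -/
  pops : List ℕ
  /-- the names which are pushed (top first) -/
  res : List ℕ
  /-- the names of the block -/
  all : Finset ℕ
  /-- the variable of an option -/
  var : Finset ℕ → Option Y

section Blocks

variable {Y : Type}

/-- the value of a name -/
def bt (X : Finset ℕ) (g : ℕ) : Bool := decide (g ∈ X)

/-- the text of an option -/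
def code (B : Blk Y) (X : Finset ℕ) : List Lt :=
  B.pops.map (fun g => Lt.pop (bt X g)) ++ B.res.reverse.map (fun g => Lt.push (bt X g))

theorem code_plain (B : Blk Y) (X : Finset ℕ) : Plain (code B X) := by
  intro a ha
  unfold code at ha
  rw [List.mem_append, List.mem_map, List.mem_map] at ha
  rcases ha with ⟨g, _, rfl⟩ | ⟨g, _, rfl⟩
  · exact ⟨by simp, by simp, by simp⟩
  · exact ⟨by simp, by simp, by simp⟩

theorem run_pops (f : ℕ → Bool) : ∀ (l : List ℕ) (σ : List Bool) (c : St × List Bool),
    mach.run (.act, σ) (l.map fun g => Lt.pop (f g)) = some c ↔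
      ∃ rest, σ = l.map f ++ rest ∧ c = (.act, rest) := by
  intro l
  induction l with
  | nil =>
    intro σ c
    show some (St.act, σ) = some c ↔ _
    constructor
    · intro h
      exact ⟨σ, rfl, (Option.some.inj h).symm⟩
    · rintro ⟨rest, h1, rfl⟩
      rw [List.map_nil, List.nil_append] at h1
      rw [h1]
  | cons g l ih =>
    intro σ c
    rw [List.map_cons, run_cons, Option.bind_eq_some_iff]
    constructor
    · rintro ⟨c', h1, h2⟩
      obtain ⟨σ', rfl, rfl⟩ := (next_act_pop σ (f g)).1 h1
      obtain ⟨rest, rfl, rfl⟩ := (ih σ' c).1 h2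
      exact ⟨rest, rfl, rfl⟩
    · rintro ⟨rest, rfl, rfl⟩
      exact ⟨(.act, l.map f ++ rest), (next_act_pop _ (f g)).2 ⟨_, rfl, rfl⟩,
        (ih _ _).2 ⟨rest, rfl, rfl⟩⟩

theorem run_pushes (f : ℕ → Bool) : ∀ (l : List ℕ) (σ : List Bool),
    mach.run (.act, σ) (l.map fun g => Lt.push (f g)) = some (.act, (l.map f).reverse ++ σ) := by
  intro l
  induction l with
  | nil => intro σ; rfl
  | cons g l ih =>
    intro σ
    rw [List.map_cons, run_cons, next_act_push]
    show mach.run (.act, f g :: σ) _ = _
    rw [ih, List.map_cons, List.reverse_cons, List.append_assoc]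
    rfl

theorem run_code (B : Blk Y) (X : Finset ℕ) (σ : List Bool) (c : St × List Bool) :
    mach.run (.act, σ) (code B X) = some c ↔
      ∃ rest, σ = B.pops.map (bt X) ++ rest ∧ c = (.act, B.res.map (bt X) ++ rest) := by
  unfold code
  rw [run_append, Option.bind_eq_some_iff]
  have key : ∀ rest : List Bool, mach.run (.act, rest)
      (B.res.reverse.map fun g => Lt.push (bt X g)) = some (.act, B.res.map (bt X) ++ rest) := by
    intro rest
    rw [run_pushes, List.map_reverse, List.reverse_reverse]
  constructor
  · rintro ⟨c', h1, h2⟩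
    obtain ⟨rest, rfl, rfl⟩ := (run_pops _ _ _ _).1 h1
    rw [key] at h2
    exact ⟨rest, rfl, (Option.some.inj h2).symm⟩
  · rintro ⟨rest, rfl, rfl⟩
    exact ⟨_, (run_pops _ _ _ _).2 ⟨rest, rfl, rfl⟩, key rest⟩

/-- the pattern of an option -/
def optPat (B : Blk Y) (X : Finset ℕ) : List (Slot Y) := marker (B.var X) :: (code B X).map forced

/-- the pattern of some options -/
def opts (B : Blk Y) (Os : List (Finset ℕ)) : List (Slot Y) := Os.flatMap (optPat B)

/-- the text of options which are not chosen -/
def nw (B : Blk Y) (Os : List (Finset ℕ)) : List Lt := Os.flatMap fun X => .no :: code B X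

theorem marker_ne {y : Option Y} {a : Lt} (h : marker y a ≠ none) : a = .yes ∨ a = .no := by
  cases a with
  | yes => exact Or.inl rfl
  | no => exact Or.inr rfl
  | _ => exact absurd rfl h

theorem al_opt_inv {B : Blk Y} {X : Finset ℕ} {w : List Lt} (h : Al (optPat B X) w) :
    w = .yes :: code B X ∨ w = .no :: code B X := by
  obtain ⟨a, v, rfl, h1, h2⟩ := h.cons_inv
  rw [al_forced_inv h2]
  rcases marker_ne h1 with rfl | rfl
  · exact Or.inl rfl
  · exact Or.inr rfl

theorem vars_opt_no (B : Blk Y) (X : Finset ℕ) : vars (optPat B X) (.no :: code B X) = [] := by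
  show vr (marker (B.var X)) .no ++ vars ((code B X).map forced) (code B X) = []
  rw [vars_forced, vr_no]
  rfl

theorem vars_opt_yes (B : Blk Y) (X : Finset ℕ) :
    vars (optPat B X) (.yes :: code B X) = (B.var X).toList := by
  show vr (marker (B.var X)) .yes ++ vars ((code B X).map forced) (code B X) = _
  rw [vars_forced, vr_yes, List.append_nil]

theorem al_opt_no (B : Blk Y) (X : Finset ℕ) : Al (optPat B X) (.no :: code B X) :=
  List.Forall₂.cons (by simp [marker]) (al_forced _)

theorem al_opt_yes (B : Blk Y) (X : Finset ℕ) : Al (optPat B X) (.yes :: code B X) :=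
  List.Forall₂.cons (by simp [marker]) (al_forced _)

theorem al_nw (B : Blk Y) : ∀ Os : List (Finset ℕ), Al (opts B Os) (nw B Os) := by
  intro Os
  induction Os with
  | nil => exact List.Forall₂.nil
  | cons X Os ih => exact (al_opt_no B X).append ih

theorem vars_nw (B : Blk Y) : ∀ Os : List (Finset ℕ), vars (opts B Os) (nw B Os) = [] := by
  intro Os
  induction Os with
  | nil => rfl
  | cons X Os ih =>
    show vars (optPat B X ++ opts B Os) ((.no :: code B X) ++ nw B Os) = []
    rw [vars_append _ _ _ _ (al_opt_no B X).length_eq, vars_opt_no, ih]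
    rfl

theorem run_look_nw (B : Blk Y) (σ : List Bool) : ∀ Os : List (Finset ℕ),
    mach.run (.look, σ) (nw B Os) = some (.look, σ) := by
  intro Os
  induction Os with
  | nil => rfl
  | cons X Os ih =>
    show mach.run (.look, σ) ((.no :: code B X) ++ nw B Os) = _
    rw [run_append, run_cons, next_look σ (by simp) (by simp)]
    show (mach.run (.look, σ) (code B X)).bind _ = _
    rw [run_look_plain σ _ (code_plain B X)]
    exact ih

theorem run_done_nw (B : Blk Y) (σ : List Bool) : ∀ Os : List (Finset ℕ),
    mach.run (.done, σ) (nw B Os) = some (.done, σ) := by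
  intro Os
  induction Os with
  | nil => rfl
  | cons X Os ih =>
    show mach.run (.done, σ) ((.no :: code B X) ++ nw B Os) = _
    rw [run_append, run_cons, next_done σ (by simp) (by simp)]
    show (mach.run (.done, σ) (code B X)).bind _ = _
    rw [run_done_plain σ _ (code_plain B X)]
    exact ih

theorem run_act_nw (B : Blk Y) (σ : List Bool) (Os : List (Finset ℕ)) :
    mach.run (.act, σ) (nw B Os ++ [.cls]) = some (ost σ, σ) := by
  cases Os with
  | nil =>
    show (mach.next (.act, σ) .cls).bind _ = _
    rw [next_act_cls]
    rfl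
  | cons X Os =>
    show mach.run (.act, σ) ((.no :: code B X) ++ nw B Os ++ [.cls]) = _
    rw [run_append, run_append, run_cons, next_act_no]
    show (((mach.run (.done, σ) (code B X)).bind _).bind _) = _
    rw [run_done_plain σ _ (code_plain B X)]
    show ((mach.run (.done, σ) (nw B Os)).bind _) = _
    rw [run_done_nw]
    show (mach.next (.done, σ) .cls).bind _ = _
    rw [next_done_cls]
    rfl

/-- in the states `act` and `done` nothing is chosen any more -/
theorem run_quiet (B : Blk Y) : ∀ (Os : List (Finset ℕ)) (q : St) (σ : List Bool) (u : List Lt)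
    (c : St × List Bool), q = .act ∨ q = .done → Al (opts B Os) u →
    mach.run (q, σ) (u ++ [.cls]) = some c → c = (ost σ, σ) ∧ vars (opts B Os) u = [] := by
  intro Os
  induction Os with
  | nil =>
    intro q σ u c hq hu h
    have hu' : u = [] := by
      unfold Al opts at hu
      rw [List.flatMap_nil, List.forall₂_nil_left_iff] at hu
      exact hu
    subst hu'
    refine ⟨?_, rfl⟩
    rw [List.nil_append, run_cons] at h
    rcases hq with rfl | rfl
    · rw [next_act_cls] at h
      exact (Option.some.inj h).symm
    · rw [next_done_cls] at h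
      exact (Option.some.inj h).symm
  | cons X Os ih =>
    intro q σ u c hq hu h
    obtain ⟨u1, u2, rfl, h1, h2⟩ := Al.split (ss := optPat B X) (tt := opts B Os) hu
    have h3 : vars (opts B (X :: Os)) (u1 ++ u2) = vars (optPat B X) u1 ++ vars (opts B Os) u2 :=
      vars_append _ _ _ _ h1.length_eq
    rcases al_opt_inv h1 with rfl | rfl
    · exfalso
      rw [List.append_assoc, List.cons_append, run_cons] at h
      rcases hq with rfl | rfl
      · rw [next_act_yes] at h
        exact absurd h (by simp)
      · rw [next_done_yes] at h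
        exact absurd h (by simp)
    · rw [h3, vars_opt_no, List.nil_append]
      rw [List.append_assoc, List.cons_append, run_cons] at h
      have h4 : mach.next (q, σ) .no = some (.done, σ) := by
        rcases hq with rfl | rfl
        · exact next_act_no σ
        · exact next_done σ (by simp) (by simp)
      rw [h4] at h
      replace h : mach.run (.done, σ) (code B X ++ (u2 ++ [.cls])) = some c := h
      rw [run_append, run_done_plain σ _ (code_plain B X)] at h
      exact ih .done σ u2 c (Or.inr rfl) h2 h

theorem run_look (B : Blk Y) : ∀ (Os : List (Finset ℕ)) (σ : List Bool) (u : List Lt)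
    (c : St × List Bool), Al (opts B Os) u → mach.run (.look, σ) (u ++ [.cls]) = some c →
    ∃ X ∈ Os, ∃ rest, σ = B.pops.map (bt X) ++ rest ∧
      c = (ost (B.res.map (bt X) ++ rest), B.res.map (bt X) ++ rest) ∧
      vars (opts B Os) u = (B.var X).toList := by
  intro Os
  induction Os with
  | nil =>
    intro σ u c hu h
    exfalso
    have hu' : u = [] := by
      unfold Al opts at hu
      rw [List.flatMap_nil, List.forall₂_nil_left_iff] at hu
      exact hu
    subst hu'
    rw [List.nil_append, run_cons, next_look_cls] at h
    exact absurd h (by simp)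
  | cons X Os ih =>
    intro σ u c hu h
    obtain ⟨u1, u2, rfl, h1, h2⟩ := Al.split (ss := optPat B X) (tt := opts B Os) hu
    have h3 : vars (opts B (X :: Os)) (u1 ++ u2) = vars (optPat B X) u1 ++ vars (opts B Os) u2 :=
      vars_append _ _ _ _ h1.length_eq
    rcases al_opt_inv h1 with rfl | rfl
    · rw [List.append_assoc, List.cons_append, run_cons, next_look_yes] at h
      replace h : mach.run (.act, σ) (code B X ++ (u2 ++ [.cls])) = some c := h
      rw [run_append, Option.bind_eq_some_iff] at h
      obtain ⟨c', h4, h5⟩ := h
      obtain ⟨rest, rfl, rfl⟩ := (run_code B X σ c').1 h4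
      obtain ⟨h6, h7⟩ := run_quiet B Os .act _ u2 c (Or.inl rfl) h2 h5
      refine ⟨X, List.mem_cons_self, rest, rfl, h6, ?_⟩
      rw [h3, h7, vars_opt_yes, List.append_nil]
    · rw [List.append_assoc, List.cons_append, run_cons, next_look σ (by simp) (by simp)] at h
      replace h : mach.run (.look, σ) (code B X ++ (u2 ++ [.cls])) = some c := h
      rw [run_append, run_look_plain σ _ (code_plain B X)] at h
      obtain ⟨X', hX', rest, e1, e2, e3⟩ := ih σ u2 c h2 h
      refine ⟨X', List.mem_cons_of_mem _ hX', rest, e1, e2, ?_⟩
      rw [h3, vars_opt_no, e3]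
      rfl

/-- the pattern of a block -/
noncomputable def blkPat (B : Blk Y) : List (Slot Y) :=
  forced .opn :: (opts B B.all.powerset.toList ++ [forced .cls])

theorem blk_inv {B : Blk Y} {σ : List Bool} {w : List Lt} {c : St × List Bool}
    (hw : Al (blkPat B) w) (h : mach.run (ost σ, σ) w = some c) :
    ∃ X ⊆ B.all, ∃ rest, σ = B.pops.map (bt X) ++ rest ∧
      c = (ost (B.res.map (bt X) ++ rest), B.res.map (bt X) ++ rest) ∧
      vars (blkPat B) w = (B.var X).toList := by
  obtain ⟨a, v, rfl, h1, h2⟩ := hw.cons_inv
  have ha := forced_ne h1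
  subst ha
  obtain ⟨u, v', rfl, h3, h4⟩ := h2.split
  have hv' : v' = [.cls] := al_forced_inv (t := [.cls]) h4
  subst hv'
  rw [run_cons, next_opn] at h
  replace h : mach.run (.look, σ) (u ++ [.cls]) = some c := h
  obtain ⟨X, hX, rest, e1, e2, e3⟩ := run_look B _ σ u c h3 h
  refine ⟨X, ?_, rest, e1, e2, ?_⟩
  · rw [Finset.mem_toList, Finset.mem_powerset] at hX
    exact hX
  · show vr (forced .opn) .opn ++ vars (opts B B.all.powerset.toList ++ [forced .cls])
      (u ++ [.cls]) = _
    rw [vr_forced, vars_append _ _ _ _ h3.length_eq, e3]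
    show [] ++ ((B.var X).toList ++ vars ([Lt.cls].map forced) [.cls]) = _
    rw [vars_forced, List.append_nil, List.nil_append]

theorem blk_exists (B : Blk Y) {X : Finset ℕ} (hX : X ⊆ B.all) (rest : List Bool) :
    ∃ w, Al (blkPat B) w ∧
      mach.run (ost (B.pops.map (bt X) ++ rest), B.pops.map (bt X) ++ rest) w =
        some (ost (B.res.map (bt X) ++ rest), B.res.map (bt X) ++ rest) ∧
      vars (blkPat B) w = (B.var X).toList := by
  have hX' : X ∈ B.all.powerset.toList := by
    rw [Finset.mem_toList, Finset.mem_powerset]
    exact hX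
  obtain ⟨O1, O2, hO⟩ := List.append_of_mem hX'
  obtain ⟨σ, hσ⟩ : ∃ σ, σ = B.pops.map (bt X) ++ rest := ⟨_, rfl⟩
  obtain ⟨σ', hσ'⟩ : ∃ σ', σ' = B.res.map (bt X) ++ rest := ⟨_, rfl⟩
  have hy : Al (optPat B X) (.yes :: code B X) := al_opt_yes B X
  have hopts : opts B B.all.powerset.toList = opts B O1 ++ (optPat B X ++ opts B O2) := by
    rw [hO]
    unfold opts
    rw [List.flatMap_append, List.flatMap_cons]
  refine ⟨.opn :: (nw B O1 ++ ((.yes :: code B X) ++ nw B O2) ++ [.cls]), ?_, ?_, ?_⟩
  · refine List.Forall₂.cons (forced_self _) ?_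
    rw [hopts]
    exact ((al_nw B O1).append (hy.append (al_nw B O2))).append (al_forced (Y := Y) [.cls])
  · rw [← hσ, ← hσ', run_cons, next_opn]
    show mach.run (.look, σ) _ = _
    rw [List.append_assoc, List.append_assoc, run_append, run_look_nw]
    show mach.run (.look, σ) (.yes :: (code B X ++ (nw B O2 ++ [.cls]))) = _
    rw [run_cons, next_look_yes]
    show mach.run (.act, σ) (code B X ++ (nw B O2 ++ [.cls])) = _
    rw [run_append, (run_code B X σ (.act, σ')).2 ⟨rest, hσ, by rw [hσ']⟩]
    exact run_act_nw B σ' O2
  · show vr (forced .opn) .opn ++ vars (opts B B.all.powerset.toList ++ [forced .cls])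
      (nw B O1 ++ ((.yes :: code B X) ++ nw B O2) ++ [.cls]) = _
    rw [vr_forced, hopts, vars_append _ _ _ _ ((al_nw B O1).append
      (hy.append (al_nw B O2))).length_eq, vars_append _ _ _ _ (al_nw B O1).length_eq,
      vars_append _ _ _ _ hy.length_eq, vars_nw, vars_nw, vars_opt_yes]
    show [] ++ ([] ++ ((B.var X).toList ++ []) ++ vars ([Lt.cls].map forced) [.cls]) = _
    rw [vars_forced]
    simp

end Blocks

end Pool.Agent.TH679.CF
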