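import Pool.Agent.TH679.CF.Sched
import Pool.Agent.TH679.SP.Main

/-!
The blocks for the colorings of a strip
-/

set_option autoImplicit false

namespace Pool.Agent.TH679.CF

open Pool.Agent.H561R2.CF
open Pool.Agent.TH679.SP (Pos lft rgt ce)

/-- the window of even names -/
def ev (h s : ℕ) : List ℕ := (List.range h).map fun k => 2 * s + 2 * k

/-- the window of odd names -/
def od (h s : ℕ) : List ℕ := (List.range h).map fun k => 2 * s + 1 + 2 * k

theorem mem_ev {h s g : ℕ} : g ∈ ev h s ↔ ∃ k < h, 2 * s + 2 * k = g := by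
  unfold ev
  simp [List.mem_map, List.mem_range]

theorem mem_od {h s g : ℕ} : g ∈ od h s ↔ ∃ k < h, 2 * s + 1 + 2 * k = g := by
  unfold od
  simp [List.mem_map, List.mem_range]

theorem ev_succ (h s : ℕ) : ev (h + 1) s = 2 * s :: ev h (s + 1) := by
  unfold ev
  rw [List.range_succ_eq_map, List.map_cons, List.map_map]
  congr 1
  refine List.map_congr_left fun k _ => ?_
  show 2 * s + 2 * (k + 1) = 2 * (s + 1) + 2 * k
  ring

theorem od_succ (h s : ℕ) : od (h + 1) s = (2 * s + 1) :: od h (s + 1) := by
  unfold od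
  rw [List.range_succ_eq_map, List.map_cons, List.map_map]
  congr 1
  refine List.map_congr_left fun k _ => ?_
  show 2 * s + 1 + 2 * (k + 1) = 2 * (s + 1) + 1 + 2 * k
  ring

theorem ev_length (h s : ℕ) : (ev h s).length = h := by simp [ev]

theorem od_length (h s : ℕ) : (od h s).length = h := by simp [od]

/-- the color of a truth value -/
def col (b : Bool) : Fin 2 := if b then 1 else 0

/-- the variable of an edge, for the colors of a set -/
def evar (S d : ℕ) (e : Option (ℕ × Bool)) (X : Finset ℕ) : Option (Pos S × Fin 2 × Fin 2) :=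
  e.bind fun e => if h : e.1 < S then
    some (⟨⟨e.1, h⟩, e.2⟩, col (bt X e.1), col (bt X (e.1 + if e.2 then d else 1))) else none

section Defs

variable (S h : ℕ)

/-- a block -/
def mk (pops res all : List ℕ) (e : Option (ℕ × Bool)) : Blk (Pos S × Fin 2 × Fin 2) :=
  ⟨pops, res, all.toFinset, evar S (2 * h) e⟩

/-- the block for the edge from `2 s` to `2 s + 1` -/
def bA (s : ℕ) : Blk (Pos S × Fin 2 × Fin 2) :=
  mk S h (ev h s) (ev (h + 1) s ++ [2 * s + 1]) (ev (h + 1) s ++ [2 * s + 1]) (some (2 * s, false))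

/-- the block for the edge from `2 s + 1` to `2 s + 2` -/
def bB (s : ℕ) : Blk (Pos S × Fin 2 × Fin 2) :=
  mk S h (ev (h + 1) s ++ [2 * s + 1]) (ev (h + 1) s ++ [2 * s + 1])
    (ev (h + 1) s ++ [2 * s + 1]) (some (2 * s + 1, false))

/-- the block for the edge from `2 s` to `2 s + 2 h` -/
def bC (s : ℕ) : Blk (Pos S × Fin 2 × Fin 2) :=
  mk S h (ev (h + 1) s) (ev h (s + 1)) (ev (h + 1) s) (some (2 * s, true))

/-- the block for the edge from `2 s + 1` to `2 s + 1 + 2 h` -/
def bD (s : ℕ) : Blk (Pos S × Fin 2 × Fin 2) :=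
  mk S h (od h (s + 1) ++ [2 * s + 1]) (od h s) (od (h + 1) s) (some (2 * s + 1, true))

/-- the blocks for the edges from `2 s, ..., 2 s + 2 r - 1` -/
def mids : ℕ → ℕ → List (Blk (Pos S × Fin 2 × Fin 2))
  | 0, s => [mk S h (ev h s) [] (ev h s) none, mk S h [] (od h s) (od h s) none]
  | r + 1, s => bA S h s :: bB S h s :: bC S h s :: (mids r (s + 1) ++ [bD S h s])

/-- all blocks -/
def full (T : ℕ) : List (Blk (Pos S × Fin 2 × Fin 2)) :=
  mk S h [] (ev h 0) (ev h 0) none :: (mids S h T 0 ++ [mk S h (od h 0) [] (od h 0) none])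

end Defs

theorem Sch.app {Y : Type} : ∀ {Bs Cs : List (Blk Y)} {N N₁ N₂ : List ℕ}, Sch N Bs N₁ →
    Sch N₁ Cs N₂ → Sch N (Bs ++ Cs) N₂ := by
  intro Bs
  induction Bs with
  | nil =>
    intro Cs N N₁ N₂ h1 h2
    have h' : N = N₁ := h1
    subst h'
    exact h2
  | cons B Bs ih =>
    rintro Cs N N₁ N₂ ⟨R, rfl, h1, h2, h3⟩ h4
    exact ⟨R, rfl, h1, h2, ih h3 h4⟩

theorem Fr.app {Y : Type} : ∀ {Bs Cs : List (Blk Y)} {U : Set ℕ}, Fr U Bs →
    (∀ V, Fr V Cs) → Fr U (Bs ++ Cs) := by
  intro Bs
  induction Bs with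
  | nil => intro Cs U _ h2; exact h2 U
  | cons B Bs ih =>
    rintro Cs U ⟨h1, h2⟩ h3
    exact ⟨h1, ih h2 h3⟩

section Lemmas

variable {S h : ℕ}

theorem sch_mids : ∀ (r s : ℕ) (R : List ℕ), Sch (ev h s ++ R) (mids S h r s) (od h s ++ R) := by
  intro r
  induction r with
  | zero =>
    intro s R
    refine ⟨R, rfl, ?_, ?_, ?_⟩
    · intro g hg
      exact List.mem_toFinset.2 hg
    · intro g hg
      exact absurd hg List.not_mem_nil
    · refine ⟨R, rfl, ?_, ?_, rfl⟩
      · intro g hg
        exact absurd hg List.not_mem_nil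
      · intro g hg
        exact List.mem_toFinset.2 hg
  | succ r ih =>
    intro s R
    refine ⟨R, rfl, ?_, ?_, ?_⟩
    · intro g hg
      refine List.mem_toFinset.2 (List.mem_append_left _ ?_)
      obtain ⟨k, hk, rfl⟩ := mem_ev.1 hg
      exact mem_ev.2 ⟨k, by omega, rfl⟩
    · intro g hg
      exact List.mem_toFinset.2 hg
    refine ⟨R, rfl, ?_, ?_, ?_⟩
    · intro g hg
      exact List.mem_toFinset.2 hg
    · intro g hg
      exact List.mem_toFinset.2 hg
    refine ⟨(2 * s + 1) :: R, ?_, ?_, ?_, ?_⟩
    · show (ev (h + 1) s ++ [2 * s + 1]) ++ R = ev (h + 1) s ++ ((2 * s + 1) :: R)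
      rw [List.append_assoc]
      rfl
    · intro g hg
      exact List.mem_toFinset.2 hg
    · intro g hg
      refine List.mem_toFinset.2 ?_
      rw [ev_succ]
      exact List.mem_cons_of_mem _ hg
    refine (ih (s + 1) ((2 * s + 1) :: R)).app ?_
    refine ⟨R, ?_, ?_, ?_, rfl⟩
    · show od h (s + 1) ++ ((2 * s + 1) :: R) = (od h (s + 1) ++ [2 * s + 1]) ++ R
      rw [List.append_assoc]
      rfl
    · intro g hg
      refine List.mem_toFinset.2 ?_
      rw [od_succ]
      have hg' : g ∈ od h (s + 1) ++ [2 * s + 1] := hg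
      rw [List.mem_append, List.mem_singleton] at hg'
      rcases hg' with hg' | rfl
      · exact List.mem_cons_of_mem _ hg'
      · exact List.mem_cons_self
    · intro g hg
      refine List.mem_toFinset.2 ?_
      obtain ⟨k, hk, rfl⟩ := mem_od.1 hg
      exact mem_od.2 ⟨k, by omega, rfl⟩

theorem sch_full (T : ℕ) : Sch [] (full S h T) [] := by
  refine ⟨[], rfl, ?_, ?_, ?_⟩
  · intro g hg
    exact absurd hg List.not_mem_nil
  · intro g hg
    exact List.mem_toFinset.2 hg
  · refine (sch_mids T 0 []).app ?_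
    refine ⟨[], rfl, ?_, ?_, rfl⟩
    · intro g hg
      exact List.mem_toFinset.2 hg
    · intro g hg
      exact absurd hg List.not_mem_nil

/-- the names which may be in use -/
def lim (h s : ℕ) : Set ℕ := {g | (g % 2 = 0 → g < 2 * s + 2 * h) ∧ (g % 2 = 1 → g < 2 * s)}

theorem fr_mids : ∀ (r s : ℕ) (U : Set ℕ), U ⊆ lim h s → Fr U (mids S h r s) := by
  intro r
  induction r with
  | zero =>
    intro s U hU
    refine ⟨?_, ?_, trivial⟩
    · intro g hg
      exact Or.inl (List.mem_toFinset.1 hg)
    · intro g hg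
      right
      have hg' := List.mem_toFinset.1 hg
      obtain ⟨k, hk, rfl⟩ := mem_od.1 hg'
      rintro (h1 | h1)
      · have := (hU h1).2 (by omega)
        omega
      · have h2 := List.mem_toFinset.1 h1
        obtain ⟨k', hk', h3⟩ := mem_ev.1 h2
        omega
  | succ r ih =>
    intro s U hU
    have hall : ∀ g, g ∈ (ev (h + 1) s ++ [2 * s + 1]).toFinset → g ∈ lim h (s + 1) := by
      intro g hg
      rw [List.mem_toFinset, List.mem_append, List.mem_singleton] at hg
      rcases hg with hg | rfl
      · obtain ⟨k, hk, rfl⟩ := mem_ev.1 hg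
        exact ⟨fun _ => by omega, fun _ => by omega⟩
      · exact ⟨fun _ => by omega, fun _ => by omega⟩
    refine ⟨?_, ?_, ?_, ?_⟩
    · intro g hg
      have hg' := List.mem_toFinset.1 hg
      rw [List.mem_append, List.mem_singleton] at hg'
      rcases hg' with hg' | rfl
      · obtain ⟨k, hk, rfl⟩ := mem_ev.1 hg'
        rcases Nat.lt_or_ge k h with h1 | h1
        · exact Or.inl (mem_ev.2 ⟨k, h1, rfl⟩)
        · right
          intro h2
          have := (hU h2).1 (by omega)
          omega
      · right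
        intro h2
        have := (hU h2).2 (by omega)
        omega
    · intro g hg
      exact Or.inl (List.mem_toFinset.1 hg)
    · intro g hg
      exact Or.inl (List.mem_toFinset.1 hg)
    · refine Fr.app (ih (s + 1) _ ?_) ?_
      · rintro g (((h1 | h1) | h1) | h1)
        · have h2 := hU h1
          exact ⟨fun h3 => by have := h2.1 h3; omega, fun h3 => by have := h2.2 h3; omega⟩
        · exact hall g h1
        · exact hall g h1
        · refine hall g ?_
          have h2 := List.mem_toFinset.1 h1
          rw [List.mem_toFinset]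
          exact List.mem_append_left _ h2
      · intro V
        refine ⟨?_, trivial⟩
        intro g hg
        left
        have hg' := List.mem_toFinset.1 hg
        rw [od_succ, List.mem_cons] at hg'
        show g ∈ od h (s + 1) ++ [2 * s + 1]
        rw [List.mem_append, List.mem_singleton]
        exact hg'.symm

theorem fr_full (T : ℕ) : Fr ∅ (full S h T) := by
  refine ⟨fun g _ => Or.inr (Set.notMem_empty g), ?_⟩
  refine Fr.app (fr_mids T 0 _ ?_) ?_
  · rintro g (h1 | h1)
    · exact absurd h1 (Set.notMem_empty g)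
    · have h2 := List.mem_toFinset.1 h1
      obtain ⟨k, hk, rfl⟩ := mem_ev.1 h2
      exact ⟨fun _ => by omega, fun _ => by omega⟩
  · intro V
    exact ⟨fun g hg => Or.inl (List.mem_toFinset.1 hg), trivial⟩

/-! ### the variables -/

/-- the variable of an edge for a coloring -/
def evr (S h : ℕ) (χ : ℕ → Bool) (e : ℕ × Bool) : List (Pos S × Fin 2 × Fin 2) :=
  if hS : e.1 < S then [(⟨⟨e.1, hS⟩, e.2⟩, col (χ e.1), col (χ (e.1 + if e.2 then 2 * h else 1)))]
  else []

theorem cv_mk_some (χ : ℕ → Bool) (pops res all : List ℕ) (e : ℕ × Bool) (h1 : e.1 ∈ all)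
    (h2 : e.1 + (if e.2 then 2 * h else 1) ∈ all) :
    ((mk S h pops res all (some e)).var (pick χ (mk S h pops res all (some e)))).toList =
      evr S h χ e := by
  have b1 : bt (pick χ (mk S h pops res all (some e))) e.1 = χ e.1 :=
    bt_pick χ _ (List.mem_toFinset.2 h1)
  have b2 : bt (pick χ (mk S h pops res all (some e))) (e.1 + if e.2 then 2 * h else 1) =
      χ (e.1 + if e.2 then 2 * h else 1) := bt_pick χ _ (List.mem_toFinset.2 h2)
  show (evar S (2 * h) (some e) (pick χ (mk S h pops res all (some e)))).toList = _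
  unfold evar evr
  rw [Option.bind_some]
  by_cases hS : e.1 < S
  · rw [dif_pos hS, dif_pos hS, b1, b2]
    rfl
  · rw [dif_neg hS, dif_neg hS]
    rfl

theorem cv_mk_none (χ : ℕ → Bool) (pops res all : List ℕ) :
    ((mk S h pops res all none).var (pick χ (mk S h pops res all none))).toList = [] := rfl

/-- the edges in the order of their blocks -/
def eds : ℕ → ℕ → List (ℕ × Bool)
  | 0, _ => []
  | r + 1, s => (2 * s, false) :: (2 * s + 1, false) :: (2 * s, true) ::
      (eds r (s + 1) ++ [(2 * s + 1, true)])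

theorem cv_app {Y : Type} (Bs Cs : List (Blk Y)) (χ : ℕ → Bool) :
    cv (Bs ++ Cs) χ = cv Bs χ ++ cv Cs χ := by
  unfold cv
  rw [List.flatMap_append]

theorem cv_mids (hh : 1 ≤ h) (χ : ℕ → Bool) : ∀ r s : ℕ,
    cv (mids S h r s) χ = (eds r s).flatMap (evr S h χ) := by
  intro r
  induction r with
  | zero => intro s; rfl
  | succ r ih =>
    intro s
    have hA := cv_mk_some (S := S) (h := h) χ (ev h s) (ev (h + 1) s ++ [2 * s + 1])
      (ev (h + 1) s ++ [2 * s + 1]) (2 * s, false)
      (List.mem_append_left _ (mem_ev.2 ⟨0, by omega, rfl⟩))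
      (List.mem_append_right _ (by simp))
    have hB := cv_mk_some (S := S) (h := h) χ (ev (h + 1) s ++ [2 * s + 1])
      (ev (h + 1) s ++ [2 * s + 1]) (ev (h + 1) s ++ [2 * s + 1]) (2 * s + 1, false)
      (List.mem_append_right _ (by simp))
      (List.mem_append_left _ (mem_ev.2 ⟨1, by omega, by simp⟩))
    have hC := cv_mk_some (S := S) (h := h) χ (ev (h + 1) s) (ev h (s + 1)) (ev (h + 1) s)
      (2 * s, true) (mem_ev.2 ⟨0, by omega, rfl⟩) (mem_ev.2 ⟨h, by omega, rfl⟩)
    have hD := cv_mk_some (S := S) (h := h) χ (od h (s + 1) ++ [2 * s + 1]) (od h s)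
      (od (h + 1) s) (2 * s + 1, true) (mem_od.2 ⟨0, by omega, rfl⟩) (mem_od.2 ⟨h, by omega, rfl⟩)
    show ((bA S h s).var (pick χ (bA S h s))).toList ++
      (((bB S h s).var (pick χ (bB S h s))).toList ++
      (((bC S h s).var (pick χ (bC S h s))).toList ++
      cv (mids S h r (s + 1) ++ [bD S h s]) χ)) = _
    rw [cv_app, ih]
    show _ ++ (_ ++ (_ ++ (_ ++ (((bD S h s).var (pick χ (bD S h s))).toList ++ [])))) = _
    unfold bA bB bC bD
    rw [hA, hB, hC, hD, eds]
    rw [List.flatMap_cons, List.flatMap_cons, List.flatMap_cons, List.flatMap_append]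
    rfl

theorem cv_full (hh : 1 ≤ h) (χ : ℕ → Bool) (T : ℕ) :
    cv (full S h T) χ = (eds T 0).flatMap (evr S h χ) := by
  show [] ++ cv (mids S h T 0 ++ [mk S h (od h 0) [] (od h 0) none]) χ = _
  rw [cv_app, cv_mids hh]
  show [] ++ (_ ++ ([] ++ [])) = _
  simp

theorem count_eds (g : ℕ) (b : Bool) : ∀ r s : ℕ,
    (eds r s).count (g, b) = if 2 * s ≤ g ∧ g < 2 * s + 2 * r then 1 else 0 := by
  intro r
  induction r with
  | zero =>
    intro s
    rw [if_neg (by omega)]
    rfl
  | succ r ih =>
    intro s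
    rw [eds, List.count_cons, List.count_cons, List.count_cons, List.count_append, ih,
      List.count_singleton]
    simp only [beq_iff_eq, Prod.mk.injEq]
    cases b
    · simp only [and_true, Bool.true_eq_false, and_false, if_false, add_zero]
      split_ifs <;> omega
    · simp only [and_true, Bool.false_eq_true, and_false, if_false, add_zero]
      split_ifs <;> omega

theorem count_flat (χ : ℕ → Bool) (e : Pos S) (α β : Fin 2) : ∀ l : List (ℕ × Bool),
    (l.flatMap (evr S h χ)).count (e, α, β) =
      if α = col (χ e.site.val) ∧ β = col (χ (e.site.val + if e.far then 2 * h else 1))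
      then l.count (e.site.val, e.far) else 0 := by
  intro l
  induction l with
  | nil => simp
  | cons a l ih =>
    rw [List.flatMap_cons, List.count_append, ih, List.count_cons]
    have key : (evr S h χ a).count (e, α, β) =
        if (α = col (χ e.site.val) ∧ β = col (χ (e.site.val + if e.far then 2 * h else 1)))
        then (if a == (e.site.val, e.far) then 1 else 0) else 0 := by
      unfold evr
      by_cases hS : a.1 < S
      · rw [dif_pos hS, List.count_singleton]
        by_cases ha : a = (e.site.val, e.far)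
        · subst ha
          simp only [beq_self_eq_true, if_true]
          have h0 : (⟨⟨e.site.val, hS⟩, e.far⟩ : Pos S) = e := rfl
          rw [h0]
          simp only [beq_iff_eq, Prod.mk.injEq, true_and]
          by_cases hc : α = col (χ e.site.val) ∧
              β = col (χ (e.site.val + if e.far then 2 * h else 1))
          · rw [if_pos hc, if_pos ⟨hc.1.symm, hc.2.symm⟩]
          · rw [if_neg hc, if_neg (fun h' => hc ⟨h'.1.symm, h'.2.symm⟩)]
        · have h1 : (a == (e.site.val, e.far)) = false := by simpa using ha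
          rw [h1]
          have h2 : ¬ ((((⟨⟨a.1, hS⟩, a.2⟩ : Pos S), col (χ a.1),
              col (χ (a.1 + if a.2 then 2 * h else 1))) == (e, α, β)) = true) := by
            rw [beq_iff_eq, Prod.mk.injEq]
            rintro ⟨h3, _⟩
            apply ha
            rw [← h3]
          rw [if_neg h2]
          simp
      · rw [dif_neg hS]
        have ha : a ≠ (e.site.val, e.far) := by
          rintro rfl
          exact hS e.site.2
        have h1 : (a == (e.site.val, e.far)) = false := by simpa using ha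
        rw [h1]
        simp
    rw [key]
    by_cases hP : α = col (χ e.site.val) ∧ β = col (χ (e.site.val + if e.far then 2 * h else 1))
    · rw [if_pos hP, if_pos hP, if_pos hP]
      exact add_comm _ _
    · rw [if_neg hP, if_neg hP, if_neg hP]

end Lemmas

theorem count_cv {T h : ℕ} (hh : 1 ≤ h) (χ : ℕ → Bool) (y : Pos (2 * T) × Fin 2 × Fin 2) :
    (cv (full (2 * T) h T) χ).count y =
      if y = ce (lft (d := 2 * h) (by omega)) (rgt (by omega)) (fun a => col (χ a.val)) y.1
      then 1 else 0 := by
  obtain ⟨e, α, β⟩ := y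
  rw [cv_full hh, count_flat, count_eds]
  have h1 : 2 * 0 ≤ e.site.val ∧ e.site.val < 2 * 0 + 2 * T := by
    have := e.site.2
    omega
  rw [if_pos h1]
  have h2 : ((e, α, β) : Pos (2 * T) × Fin 2 × Fin 2) = ce (lft (d := 2 * h) (by omega))
      (rgt (by omega)) (fun a => col (χ a.val)) (e, α, β).1 ↔
      (α = col (χ e.site.val) ∧ β = col (χ (e.site.val + if e.far then 2 * h else 1))) := by
    unfold ce lft rgt
    simp only [Prod.mk.injEq, true_and]
  by_cases hc : α = col (χ e.site.val) ∧ β = col (χ (e.site.val + if e.far then 2 * h else 1))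
  · rw [if_pos hc, if_pos (h2.2 hc)]
  · rw [if_neg hc, if_neg (fun h' => hc (h2.1 h'))]

end Pool.Agent.TH679.CF
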